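import Mathlib
import Pool.Agent.Y766.R10.Stm
import Pool.Agent.Helper256.KM.Mertens

/-!
# R10/SEL: Selberg's weights

`1 / k`, `k ≤ K`, is bounded by the same weight on all `K`-smooth numbers, so that the quadratic
form factorises exactly.
-/

set_option autoImplicit false

namespace Pool.Agent.Y286.R10

open Finset

/-- Mertens' product -/
noncomputable def PM (N : ℕ) : ℝ := ∏ p ∈ (N + 1).primesBelow, (1 - (p : ℝ)⁻¹)⁻¹

theorem primesBelow_eq (N : ℕ) : (N + 1).primesBelow = (Icc 1 N).filter Nat.Prime := by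
  ext p
  rw [Nat.mem_primesBelow, mem_filter, mem_Icc]
  constructor
  · rintro ⟨h1, h2⟩; exact ⟨⟨h2.one_lt.le, by omega⟩, h2⟩
  · rintro ⟨⟨h1, h2⟩, h3⟩; exact ⟨by omega, h3⟩

theorem one_sub_inv_le {x : ℝ} (_h0 : 0 ≤ x) (h1 : x ≤ 1 / 2) :
    (1 - x)⁻¹ ≤ Real.exp (x + 2 * x ^ 2) := by
  have h2 : 0 < 1 - x := by linarith
  have h3 : 1 + (x + 2 * x ^ 2) ≤ Real.exp (x + 2 * x ^ 2) := by
    have := Real.add_one_le_exp (x + 2 * x ^ 2); linarith
  refine le_trans ?_ h3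
  rw [inv_le_iff_one_le_mul₀ h2]
  nlinarith [mul_nonneg (sq_nonneg x) (by linarith : (0 : ℝ) ≤ 1 - 2 * x)]

theorem PM_le : ∃ C : ℝ, 0 < C ∧ ∀ N : ℕ, 1 ≤ N → PM N ≤ C * (1 + Real.log N) := by
  obtain ⟨C, hC⟩ := Pool.Agent.Helper256.KM.mertens_inv
  have hs : Summable (fun n : ℕ => 1 / (n : ℝ) ^ 2) := Real.summable_one_div_nat_pow.2 (by norm_num)
  set S : ℝ := ∑' n : ℕ, 1 / (n : ℝ) ^ 2 with hS
  refine ⟨2 * Real.exp (C + 2 * S), by positivity, ?_⟩
  intro N hN
  have hN0 : (1 : ℝ) ≤ N := by exact_mod_cast hN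
  set M : ℕ := max N 3 with hM
  have hM3 : 3 ≤ M := le_max_right _ _
  have hM3' : (3 : ℝ) ≤ M := by exact_mod_cast hM3
  have hlogM : 0 < Real.log M := Real.log_pos (by linarith)
  have h1 : PM N ≤ ∏ p ∈ (Icc 1 N).filter Nat.Prime,
      Real.exp (1 / (p : ℝ) + 2 * (1 / (p : ℝ) ^ 2)) := by
    unfold PM
    rw [primesBelow_eq]
    refine prod_le_prod ?_ ?_
    · intro p hp
      rw [mem_filter] at hp
      have h2 : (2 : ℝ) ≤ p := by exact_mod_cast hp.2.two_le
      have h3 : (p : ℝ)⁻¹ ≤ 1 := inv_le_one_of_one_le₀ (by linarith)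
      exact inv_nonneg.mpr (by linarith)
    · intro p hp
      rw [mem_filter] at hp
      have h2 : (2 : ℝ) ≤ p := by exact_mod_cast hp.2.two_le
      have h3 : (p : ℝ)⁻¹ ≤ 1 / 2 := by
        rw [one_div]; exact inv_anti₀ (by norm_num) h2
      have h4 := one_sub_inv_le (x := (p : ℝ)⁻¹) (by positivity) h3
      refine h4.trans (le_of_eq ?_)
      congr 1
      rw [one_div, one_div, inv_pow]
  rw [← Real.exp_sum, sum_add_distrib] at h1
  have h2 : ∑ p ∈ (Icc 1 N).filter Nat.Prime, 1 / (p : ℝ) ≤ Real.log (Real.log M) + C := by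
    have h3 := (abs_le.mp (hC M hM3)).2
    have h4 : ∑ p ∈ (Icc 1 N).filter Nat.Prime, 1 / (p : ℝ) ≤
        ∑ p ∈ (Icc 1 M).filter Nat.Prime, 1 / (p : ℝ) := by
      refine sum_le_sum_of_subset_of_nonneg ?_ (fun i _ _ => by positivity)
      refine filter_subset_filter _ (Icc_subset_Icc le_rfl (le_max_left _ _))
    linarith
  have h3 : ∑ p ∈ (Icc 1 N).filter Nat.Prime, 2 * (1 / (p : ℝ) ^ 2) ≤ 2 * S := by
    rw [← mul_sum]
    refine mul_le_mul_of_nonneg_left ?_ (by norm_num)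
    exact hs.sum_le_tsum _ (fun i _ => by positivity)
  have h4 : PM N ≤ Real.exp (Real.log (Real.log M) + (C + 2 * S)) :=
    h1.trans (Real.exp_le_exp.mpr (by linarith))
  rw [Real.exp_add, Real.exp_log hlogM] at h4
  have h5 : Real.log M ≤ 2 * (1 + Real.log N) := by
    have h6 : Real.log 3 ≤ 2 := by
      have := Real.log_le_sub_one_of_pos (by norm_num : (0 : ℝ) < 3)
      linarith
    have h7 : 0 ≤ Real.log N := Real.log_nonneg hN0
    rcases max_cases N 3 with h | h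
    · rw [hM, h.1]; linarith
    · rw [hM, h.1]; push_cast; linarith
  have h6 := mul_le_mul_of_nonneg_right h5 (Real.exp_pos (C + 2 * S)).le
  linarith

/-- the weight `1 / k` on the smooth numbers -/
noncomputable def sm (K : ℕ) : ℕ → ℝ := Set.indicator ((K + 1).smoothNumbers) (fun k => (k : ℝ)⁻¹)

theorem sm_nonneg (K k : ℕ) : 0 ≤ sm K k := Set.indicator_nonneg (fun _ _ => by positivity) _

theorem hasSum_sm (K : ℕ) : HasSum (sm K) (PM K) := by
  let f : ℕ →* ℝ :=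
    { toFun := fun n => (n : ℝ)⁻¹
      map_one' := by simp
      map_mul' := fun a b => by push_cast; rw [mul_inv] }
  have h := (EulerProduct.summable_and_hasSum_smoothNumbers_prod_primesBelow_geometric
    (f := f) (by
      intro p hp
      change ‖(p : ℝ)⁻¹‖ < 1
      have h2 : (2 : ℝ) ≤ p := by exact_mod_cast hp.two_le
      rw [Real.norm_of_nonneg (by positivity)]
      exact inv_lt_one_of_one_lt₀ (by linarith)) (K + 1)).2
  exact hasSum_subtype_iff_indicator.mp h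

theorem hasSum_sm_dvd (K L : ℕ) (hL : L ∈ (K + 1).smoothNumbers) :
    HasSum (fun k => if L ∣ k then sm K k else 0) ((L : ℝ)⁻¹ * PM K) := by
  have hL0 : L ≠ 0 := Nat.ne_zero_of_mem_smoothNumbers hL
  have hinj : Function.Injective (fun m : ℕ => L * m) := fun a b h =>
    Nat.eq_of_mul_eq_mul_left (Nat.pos_of_ne_zero hL0) h
  rw [← hinj.hasSum_iff]
  · have h1 : ((fun k => if L ∣ k then sm K k else 0) ∘ fun m : ℕ => L * m) =
        fun m => (L : ℝ)⁻¹ * sm K m := by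
      funext m
      simp only [Function.comp_apply]
      rw [if_pos (Dvd.intro m rfl)]
      unfold sm
      by_cases hm : m ∈ (K + 1).smoothNumbers
      · rw [Set.indicator_of_mem hm, Set.indicator_of_mem (Nat.mul_mem_smoothNumbers hL hm)]
        push_cast
        rw [mul_inv]
      · rw [Set.indicator_of_notMem hm, Set.indicator_of_notMem, mul_zero]
        intro h
        apply hm
        rw [Nat.mem_smoothNumbers'] at h ⊢
        intro p hp hpm
        exact h p hp (Dvd.dvd.mul_left hpm L)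
    rw [h1]
    exact (hasSum_sm K).mul_left _
  · intro k hk
    rw [if_neg]
    rintro ⟨c, hc⟩
    exact hk ⟨c, hc.symm⟩

theorem form_le (a : ℕ → ℝ) (Z K : ℕ) (hZ : Z ≤ K) :
    ∑ k ∈ Icc 1 K, (∑ l ∈ (Icc 1 Z).filter (fun l => l ∣ k), a l) ^ 2 / k ≤
      PM K * ∑ l1 ∈ Icc 1 Z, ∑ l2 ∈ Icc 1 Z, a l1 * a l2 * ((Nat.lcm l1 l2 : ℕ) : ℝ)⁻¹ := by
  have hmem : ∀ l ∈ Icc 1 Z, l ∈ (K + 1).smoothNumbers := by
    intro l hl
    rw [mem_Icc] at hl
    exact Nat.mem_smoothNumbers_of_lt (by omega) (by omega)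
  have h1 : HasSum (fun k => ∑ l1 ∈ Icc 1 Z, ∑ l2 ∈ Icc 1 Z,
      a l1 * a l2 * (if Nat.lcm l1 l2 ∣ k then sm K k else 0))
      (∑ l1 ∈ Icc 1 Z, ∑ l2 ∈ Icc 1 Z, a l1 * a l2 * (((Nat.lcm l1 l2 : ℕ) : ℝ)⁻¹ * PM K)) := by
    refine hasSum_sum fun l1 h1 => hasSum_sum fun l2 h2 => ?_
    refine (hasSum_sm_dvd K _ ?_).mul_left _
    rw [Nat.mem_smoothNumbers']
    intro p hp hd
    have h3 : p ∣ l1 * l2 := hd.trans (Nat.lcm_dvd_mul l1 l2)
    rcases (Nat.Prime.dvd_mul hp).mp h3 with h | h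
    · exact (Nat.mem_smoothNumbers'.mp (hmem l1 h1)) p hp h
    · exact (Nat.mem_smoothNumbers'.mp (hmem l2 h2)) p hp h
  have h2 : (∑ l1 ∈ Icc 1 Z, ∑ l2 ∈ Icc 1 Z, a l1 * a l2 * (((Nat.lcm l1 l2 : ℕ) : ℝ)⁻¹ * PM K)) =
      PM K * ∑ l1 ∈ Icc 1 Z, ∑ l2 ∈ Icc 1 Z, a l1 * a l2 * ((Nat.lcm l1 l2 : ℕ) : ℝ)⁻¹ := by
    rw [mul_sum]
    refine sum_congr rfl fun l1 _ => ?_
    rw [mul_sum]
    refine sum_congr rfl fun l2 _ => ?_
    ring
  have h3 : (fun k => ∑ l1 ∈ Icc 1 Z, ∑ l2 ∈ Icc 1 Z,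
      a l1 * a l2 * (if Nat.lcm l1 l2 ∣ k then sm K k else 0)) =
      fun k => (∑ l ∈ (Icc 1 Z).filter (fun l => l ∣ k), a l) ^ 2 * sm K k := by
    funext k
    rw [sq, sum_filter, sum_mul_sum, sum_mul]
    refine sum_congr rfl fun l1 _ => ?_
    rw [sum_mul]
    refine sum_congr rfl fun l2 _ => ?_
    by_cases h4 : l1 ∣ k <;> by_cases h5 : l2 ∣ k <;> simp [Nat.lcm_dvd_iff, h4, h5]
  rw [h3, h2] at h1
  refine le_trans (le_of_eq ?_) (sum_le_hasSum (Icc 1 K)
    (fun i _ => mul_nonneg (sq_nonneg _) (sm_nonneg K i)) h1)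
  refine sum_congr rfl fun k hk => ?_
  rw [mem_Icc] at hk
  have h4 : sm K k = (k : ℝ)⁻¹ :=
    Set.indicator_of_mem (Nat.mem_smoothNumbers_of_lt (by omega) (by omega)) _
  rw [h4, div_eq_mul_inv]

theorem diag (a : ℕ → ℝ) (Z : ℕ) :
    ∑ l1 ∈ Icc 1 Z, ∑ l2 ∈ Icc 1 Z, a l1 * a l2 * ((Nat.lcm l1 l2 : ℕ) : ℝ)⁻¹ =
      ∑ g ∈ Icc 1 Z, (Nat.totient g : ℝ) * (∑ l ∈ (Icc 1 Z).filter (fun l => g ∣ l), a l / l) ^ 2 := by
  have h1 : ∀ g : ℕ, (Nat.totient g : ℝ) * (∑ l ∈ (Icc 1 Z).filter (fun l => g ∣ l), a l / l) ^ 2 =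
      ∑ l1 ∈ Icc 1 Z, ∑ l2 ∈ Icc 1 Z, a l1 / l1 * (a l2 / l2) *
        (if g ∣ l1 ∧ g ∣ l2 then (Nat.totient g : ℝ) else 0) := by
    intro g
    rw [sq, sum_filter, sum_mul_sum, mul_sum]
    refine sum_congr rfl fun l1 _ => ?_
    rw [mul_sum]
    refine sum_congr rfl fun l2 _ => ?_
    by_cases h4 : g ∣ l1 <;> by_cases h5 : g ∣ l2 <;> simp [h4, h5]
    ring
  rw [sum_congr rfl fun g _ => h1 g]
  symm
  refine sum_comm.trans ?_
  refine sum_congr rfl fun l1 hl1 => ?_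
  refine sum_comm.trans ?_
  refine sum_congr rfl fun l2 hl2 => ?_
  rw [← mul_sum]
  rw [mem_Icc] at hl1 hl2
  have h2 : ∑ g ∈ Icc 1 Z, (if g ∣ l1 ∧ g ∣ l2 then (Nat.totient g : ℝ) else 0) =
      (Nat.gcd l1 l2 : ℝ) := by
    rw [← sum_filter]
    have h3 : (Icc 1 Z).filter (fun g => g ∣ l1 ∧ g ∣ l2) = (Nat.gcd l1 l2).divisors := by
      ext g
      rw [mem_filter, mem_Icc, Nat.mem_divisors, Nat.dvd_gcd_iff]
      constructor
      · rintro ⟨-, h⟩
        exact ⟨h, Nat.gcd_ne_zero_left (by omega)⟩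
      · rintro ⟨h, -⟩
        have h4 := Nat.le_of_dvd (by omega) h.1
        have h5 := Nat.pos_of_dvd_of_pos h.1 (by omega)
        exact ⟨⟨h5, by omega⟩, h⟩
    rw [h3]
    have h4 := Nat.sum_totient (Nat.gcd l1 l2)
    exact_mod_cast h4
  rw [h2]
  have h3 : (Nat.gcd l1 l2 : ℝ) * (Nat.lcm l1 l2 : ℝ) = l1 * l2 := by
    exact_mod_cast Nat.gcd_mul_lcm l1 l2
  have hl1' : (l1 : ℝ) ≠ 0 := by
    have : l1 ≠ 0 := by omega
    exact_mod_cast this
  have hl2' : (l2 : ℝ) ≠ 0 := by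
    have : l2 ≠ 0 := by omega
    exact_mod_cast this
  have hL : (Nat.lcm l1 l2 : ℝ) ≠ 0 := by
    have : Nat.lcm l1 l2 ≠ 0 := Nat.lcm_ne_zero (by omega) (by omega)
    exact_mod_cast this
  field_simp
  linear_combination (a l1 * a l2) * h3

theorem y_bound {C z : ℝ} (hz : 1 ≤ z) (hM : ∀ g : ℕ, 1 ≤ g → ∀ t : ℝ, 1 ≤ t →
    |∑ j ∈ (Icc 1 ⌊t⌋₊).filter (fun j => Nat.Coprime j g),
      (ArithmeticFunction.moebius j : ℝ) / j * Real.log (t / j)| ≤ C * (g / Nat.totient g))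
    (g : ℕ) (hg : g ∈ Icc 1 ⌊z⌋₊) :
    (Nat.totient g : ℝ) * (∑ l ∈ (Icc 1 ⌊z⌋₊).filter (fun l => g ∣ l),
      (ArithmeticFunction.moebius l : ℝ) * Real.log (z / l) / l) ^ 2 ≤
      C ^ 2 * (if Squarefree g then (Nat.totient g : ℝ)⁻¹ else 0) := by
  rw [mem_Icc] at hg
  have hg0 : 0 < g := by omega
  have hgR : (0 : ℝ) < g := by exact_mod_cast hg0
  have hφ : (0 : ℝ) < Nat.totient g := by exact_mod_cast Nat.totient_pos.mpr hg0
  split_ifs with hsq
  · -- squarefree case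
    have hgz : (g : ℝ) ≤ z := (Nat.le_floor_iff (by linarith)).mp hg.2
    have ht : 1 ≤ z / g := by rw [le_div_iff₀ hgR]; linarith
    have h1 := hM g hg.1 (z / g) ht
    have h2 : ∑ l ∈ (Icc 1 ⌊z⌋₊).filter (fun l => g ∣ l),
        (ArithmeticFunction.moebius l : ℝ) * Real.log (z / l) / l =
        (ArithmeticFunction.moebius g : ℝ) / g *
          ∑ j ∈ (Icc 1 ⌊z / g⌋₊).filter (fun j => Nat.Coprime j g),
          (ArithmeticFunction.moebius j : ℝ) / j * Real.log (z / g / j) := by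
      have h3 : ∑ l ∈ (Icc 1 ⌊z⌋₊).filter (fun l => g ∣ l),
          (ArithmeticFunction.moebius l : ℝ) * Real.log (z / l) / l =
          ∑ j ∈ Icc 1 ⌊z / g⌋₊, (ArithmeticFunction.moebius (g * j) : ℝ) *
            Real.log (z / (g * j : ℕ)) / (g * j : ℕ) := by
        symm
        refine sum_nbij' (fun j => g * j) (fun l => l / g) ?_ ?_ ?_ ?_ ?_
        · intro j hj
          rw [mem_Icc] at hj
          have hj2 : (j : ℝ) ≤ z / g := (Nat.le_floor_iff (by linarith)).mp hj.2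
          rw [le_div_iff₀ hgR] at hj2
          rw [mem_filter, mem_Icc]
          refine ⟨⟨Nat.mul_pos hg0 (by omega), Nat.le_floor ?_⟩, Dvd.intro j rfl⟩
          push_cast
          linarith
        · intro l hl
          rw [mem_filter, mem_Icc] at hl
          obtain ⟨⟨h4, h5⟩, c, rfl⟩ := hl
          have h6 : ((g * c : ℕ) : ℝ) ≤ z := (Nat.le_floor_iff (by linarith)).mp h5
          rw [mem_Icc, Nat.mul_div_cancel_left c hg0]
          refine ⟨Nat.pos_of_mul_pos_left h4 |> fun h => ?_, Nat.le_floor ?_⟩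
          · rcases Nat.eq_zero_or_pos c with h7 | h7
            · subst h7; simp at h4
            · exact h7
          · rw [le_div_iff₀ hgR]
            push_cast at h6
            linarith
        · intro j _
          exact Nat.mul_div_cancel_left j hg0
        · intro l hl
          rw [mem_filter] at hl
          exact Nat.mul_div_cancel' hl.2
        · intro j _
          rfl
      rw [h3, sum_filter, mul_sum]
      refine sum_congr rfl fun j hj => ?_
      rw [mem_Icc] at hj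
      have hjR : (0 : ℝ) < j := by
        have : 0 < j := by omega
        exact_mod_cast this
      split_ifs with hc
      · have h4 : ArithmeticFunction.moebius (g * j) =
            ArithmeticFunction.moebius g * ArithmeticFunction.moebius j :=
          ArithmeticFunction.isMultiplicative_moebius.map_mul_of_coprime hc.symm
        rw [h4]
        push_cast
        rw [div_div]
        field_simp
      · have h4 : ArithmeticFunction.moebius (g * j) = 0 := by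
          apply ArithmeticFunction.moebius_eq_zero_of_not_squarefree
          intro h5
          exact hc (Nat.coprime_of_squarefree_mul h5).symm
        rw [h4]
        simp
    rw [h2]
    set F : ℝ := ∑ j ∈ (Icc 1 ⌊z / g⌋₊).filter (fun j => Nat.Coprime j g),
          (ArithmeticFunction.moebius j : ℝ) / j * Real.log (z / g / j) with hF
    have h5 : F ^ 2 ≤ (C * (g / Nat.totient g)) ^ 2 := by
      rw [← sq_abs F]
      exact pow_le_pow_left₀ (abs_nonneg _) h1 2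
    have h6 : ((ArithmeticFunction.moebius g : ℤ) : ℝ) ^ 2 = 1 := by
      have := ArithmeticFunction.moebius_sq_eq_one_of_squarefree hsq
      exact_mod_cast this
    have h7 : (Nat.totient g : ℝ) * ((ArithmeticFunction.moebius g : ℝ) / g * F) ^ 2 =
        (Nat.totient g : ℝ) / g ^ 2 * F ^ 2 := by
      rw [mul_pow, div_pow, h6]; ring
    rw [h7]
    have h8 := mul_le_mul_of_nonneg_left h5 (by positivity : (0 : ℝ) ≤ (Nat.totient g : ℝ) / g ^ 2)
    refine h8.trans (le_of_eq ?_)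
    field_simp
  · have h1 : ∑ l ∈ (Icc 1 ⌊z⌋₊).filter (fun l => g ∣ l),
        (ArithmeticFunction.moebius l : ℝ) * Real.log (z / l) / l = 0 := by
      refine sum_eq_zero fun l hl => ?_
      rw [mem_filter] at hl
      have h2 : ArithmeticFunction.moebius l = 0 := by
        apply ArithmeticFunction.moebius_eq_zero_of_not_squarefree
        intro h3
        exact hsq (h3.squarefree_of_dvd hl.2)
      rw [h2]
      simp
    rw [h1]
    simp

theorem totient_sf (g : ℕ) (hg : Squarefree g) :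
    (Nat.totient g : ℝ)⁻¹ = ∏ p ∈ g.primeFactors, ((p : ℝ) - 1)⁻¹ := by
  have h0 : g ≠ 0 := hg.ne_zero
  have h1 := Nat.totient_mul_prod_primeFactors g
  rw [Nat.prod_primeFactors_of_squarefree hg] at h1
  have h2 : Nat.totient g = ∏ p ∈ g.primeFactors, (p - 1) := by
    have := Nat.eq_of_mul_eq_mul_right (Nat.pos_of_ne_zero h0) (h1.trans (mul_comm _ _))
    exact this
  rw [h2, prod_inv_distrib]
  congr 1
  push_cast
  refine prod_congr rfl fun p hp => ?_
  have h3 := (Nat.prime_of_mem_primeFactors hp).one_lt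
  rw [Nat.cast_sub h3.le]
  simp

theorem sf_sum (Z : ℕ) :
    ∑ g ∈ Icc 1 Z, (if Squarefree g then (Nat.totient g : ℝ)⁻¹ else 0) ≤ PM Z := by
  have h1 : PM Z = ∏ p ∈ (Icc 1 Z).filter Nat.Prime, (1 + ((p : ℝ) - 1)⁻¹) := by
    unfold PM
    rw [primesBelow_eq]
    refine prod_congr rfl fun p hp => ?_
    rw [mem_filter] at hp
    have h2 : (2 : ℝ) ≤ p := by exact_mod_cast hp.2.two_le
    have h3 : (p : ℝ) - 1 ≠ 0 := by linarith
    have h4 : (p : ℝ) ≠ 0 := by linarith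
    have h5 : 1 - (p : ℝ)⁻¹ ≠ 0 := by
      have : 1 - (p : ℝ)⁻¹ = (p - 1) / p := by field_simp
      rw [this]
      exact div_ne_zero h3 h4
    field_simp
    ring
  rw [h1, prod_one_add, ← sum_filter]
  have h2 : Set.InjOn (fun g : ℕ => g.primeFactors) ((Icc 1 Z).filter Squarefree) := by
    intro a ha b hb h
    rw [mem_coe, mem_filter] at ha hb
    have h3 := Nat.prod_primeFactors_of_squarefree ha.2
    have h4 := Nat.prod_primeFactors_of_squarefree hb.2
    simp only at h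
    rw [← h3, ← h4, h]
  have h3 : ∑ g ∈ (Icc 1 Z).filter Squarefree, (Nat.totient g : ℝ)⁻¹ =
      ∑ S ∈ ((Icc 1 Z).filter Squarefree).image (fun g : ℕ => g.primeFactors),
        ∏ p ∈ S, ((p : ℝ) - 1)⁻¹ := by
    rw [sum_image h2]
    refine sum_congr rfl fun g hg => ?_
    rw [mem_filter] at hg
    exact totient_sf g hg.2
  rw [h3]
  refine sum_le_sum_of_subset_of_nonneg ?_ ?_
  · intro S hS
    rw [mem_image] at hS
    obtain ⟨g, hg, rfl⟩ := hS
    rw [mem_filter, mem_Icc] at hg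
    rw [mem_powerset]
    intro p hp
    have h4 := Nat.prime_of_mem_primeFactors hp
    have h5 := Nat.le_of_mem_primeFactors hp
    rw [mem_filter, mem_Icc]
    exact ⟨⟨h4.one_lt.le, by omega⟩, h4⟩
  · intro S hS _
    rw [mem_powerset] at hS
    refine prod_nonneg fun p hp => ?_
    have h4 := (mem_filter.mp (hS hp)).2.two_le
    have h5 : (2 : ℝ) ≤ p := by exact_mod_cast h4
    exact inv_nonneg.mpr (by linarith)

theorem sel (h : Pool.Agent.Y766.R10.S_MOB) : Pool.Agent.Y766.R10.S_SEL := by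
  obtain ⟨C, hC, hM⟩ := h
  obtain ⟨D, hD, hP⟩ := PM_le
  refine ⟨D * (C ^ 2 * D), by positivity, ?_⟩
  intro z hz K hK
  have hZ1 : 1 ≤ ⌊z⌋₊ := Nat.le_floor (by exact_mod_cast hz)
  have hZK : ⌊z⌋₊ ≤ K := Nat.floor_le_of_le hK
  have hK1 : 1 ≤ K := hZ1.trans hZK
  have hZR : (1 : ℝ) ≤ (⌊z⌋₊ : ℝ) := by exact_mod_cast hZ1
  have hKR : (1 : ℝ) ≤ (K : ℝ) := by exact_mod_cast hK1
  have hlogK : 0 ≤ Real.log K := Real.log_nonneg hKR
  have hlogz : 0 ≤ Real.log z := Real.log_nonneg hz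
  have hlogZ : Real.log (⌊z⌋₊ : ℝ) ≤ Real.log z :=
    Real.log_le_log (by linarith) (Nat.floor_le (by linarith))
  have h1 : ∑ k ∈ Icc 1 K, (∑ l ∈ k.divisors.filter (fun l : ℕ => (l : ℝ) ≤ z),
      (ArithmeticFunction.moebius l : ℝ) * Real.log (z / l)) ^ 2 / k =
      ∑ k ∈ Icc 1 K, (∑ l ∈ (Icc 1 ⌊z⌋₊).filter (fun l => l ∣ k),
      (ArithmeticFunction.moebius l : ℝ) * Real.log (z / l)) ^ 2 / k := by
    refine sum_congr rfl fun k hk => ?_
    rw [mem_Icc] at hk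
    have h2 : k.divisors.filter (fun l : ℕ => (l : ℝ) ≤ z) =
        (Icc 1 ⌊z⌋₊).filter (fun l => l ∣ k) := by
      ext l
      rw [mem_filter, mem_filter, mem_Icc, Nat.mem_divisors]
      constructor
      · rintro ⟨⟨h2, h3⟩, h4⟩
        exact ⟨⟨Nat.pos_of_dvd_of_pos h2 (by omega), Nat.le_floor h4⟩, h2⟩
      · rintro ⟨⟨h2, h3⟩, h4⟩
        exact ⟨⟨h4, by omega⟩, (Nat.le_floor_iff (by linarith)).mp h3⟩
    rw [h2]
  rw [h1]
  refine (form_le (fun l => (ArithmeticFunction.moebius l : ℝ) * Real.log (z / l)) ⌊z⌋₊ K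
    hZK).trans ?_
  rw [diag]
  have h2 : ∑ g ∈ Icc 1 ⌊z⌋₊, (Nat.totient g : ℝ) *
      (∑ l ∈ (Icc 1 ⌊z⌋₊).filter (fun l => g ∣ l),
        (ArithmeticFunction.moebius l : ℝ) * Real.log (z / l) / l) ^ 2 ≤
      C ^ 2 * PM ⌊z⌋₊ := by
    refine (sum_le_sum fun g hg => y_bound hz hM g hg).trans ?_
    rw [← mul_sum]
    exact mul_le_mul_of_nonneg_left (sf_sum _) (by positivity)
  have h3 : PM ⌊z⌋₊ ≤ D * (1 + Real.log z) := by
    refine (hP _ hZ1).trans ?_
    exact mul_le_mul_of_nonneg_left (by linarith) hD.le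
  have h4 : C ^ 2 * PM ⌊z⌋₊ ≤ C ^ 2 * (D * (1 + Real.log z)) :=
    mul_le_mul_of_nonneg_left h3 (by positivity)
  have h5 : 0 ≤ PM K := by
    have := hasSum_sm K
    exact this.nonneg (fun k => sm_nonneg K k)
  have h6 : 0 ≤ C ^ 2 * (D * (1 + Real.log z)) := by positivity
  calc PM K * _ ≤ PM K * (C ^ 2 * (D * (1 + Real.log z))) :=
        mul_le_mul_of_nonneg_left (h2.trans h4) h5
    _ ≤ (D * (1 + Real.log K)) * (C ^ 2 * (D * (1 + Real.log z))) :=
        mul_le_mul_of_nonneg_right (hP K hK1) h6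
    _ = D * (C ^ 2 * D) * (1 + Real.log z) * (1 + Real.log K) := by ring

end Pool.Agent.Y286.R10
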